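import Pool.Agent.H948.HS.Stm

/-!
# The largest ballistic speed
-/

set_option autoImplicit false

namespace Pool.Agent.H357.HS

open MeasureTheory ProbabilityTheory Set Filter Metric
open scoped ENNReal NNReal Topology RealInnerProductSpace
open Pool.Agent.H948.HS

/-- Self-avoiding walks of `n` steps whose displacement in the direction `f` is at least `a`. -/
def Dir (m : ℕ) (c : ℝ) (f : E m) (a : ℝ) (n : ℕ) : Set (Om m) :=
  {u | u ∈ Saw m c n ∧ a ≤ ⟪f, S u 0 n⟫}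

theorem meas_Dir {m : ℕ} (c : ℝ) (f : E m) (a : ℝ) (n : ℕ) : MeasurableSet (Dir m c f a n) :=
  (meas_Saw c n).inter (measurableSet_le measurable_const (measurable_inner_S f 0 n))

theorem dir_prob (hR : S_ROT) (hL : S_LIN) {m : ℕ} (c : ℝ) (f : E m) (hf : ‖f‖ = 1) (a : ℝ)
    (n : ℕ) : (Pm m).real (Dir m c f a n) = (Pm m).real (High m c a n) := by
  obtain ⟨R, hRf⟩ := hL.1 m f hf
  rw [← hR m R (Dir m c f a n) (meas_Dir c f a n)]
  have e : {u : Om m | rotO R u ∈ Dir m c f a n} = High m c a n := by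
    ext u
    have h1 : rotO R u ∈ Dir m c f a n ↔
        rotO R u ∈ Saw m c n ∧ a ≤ ⟪f, S (rotO R u) 0 n⟫ := Iff.rfl
    have h2 : u ∈ High m c a n ↔ u ∈ Saw m c n ∧ a ≤ ht u 0 n := Iff.rfl
    have h3 : ⟪f, S (rotO R u) 0 n⟫ = ht u 0 n := by
      rw [rotO_S, ← hRf, LinearIsometryEquiv.inner_map_map, ← ht_eq_inner]
    show rotO R u ∈ Dir m c f a n ↔ u ∈ High m c a n
    rw [h1, h2, rotO_Saw, h3]
  rw [e]

theorem far_subset {m : ℕ} (c v a η : ℝ) (n : ℕ) (F : Finset (E m)) (hη1 : η ≤ 1)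
    (hF : ∀ x : E m, ∃ f ∈ F, (1 - η) * ‖x‖ ≤ ⟪f, x⟫) (ha : a ≤ (1 - η) * (v * n)) :
    Far m c (v * n) n ⊆ ⋃ f ∈ F, Dir m c f a n := by
  rintro u ⟨h1, h2⟩
  obtain ⟨f, hf, h3⟩ := hF (S u 0 n)
  refine mem_iUnion₂.2 ⟨f, hf, h1, ha.trans (le_trans ?_ h3)⟩
  exact mul_le_mul_of_nonneg_left h2 (by linarith)

theorem far_le_high (hR : S_ROT) (hL : S_LIN) {m : ℕ} (c v a η : ℝ) (n : ℕ) (F : Finset (E m))
    (hη1 : η ≤ 1) (hF1 : ∀ f ∈ F, ‖f‖ = 1)
    (hF : ∀ x : E m, ∃ f ∈ F, (1 - η) * ‖x‖ ≤ ⟪f, x⟫) (ha : a ≤ (1 - η) * (v * n)) :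
    (Pm m).real (Far m c (v * n) n) ≤ F.card * (Pm m).real (High m c a n) := by
  calc (Pm m).real (Far m c (v * n) n) ≤ (Pm m).real (⋃ f ∈ F, Dir m c f a n) :=
        measureReal_mono (far_subset c v a η n F hη1 hF ha) (measure_ne_top _ _)
    _ ≤ ∑ f ∈ F, (Pm m).real (Dir m c f a n) := measureReal_biUnion_finset_le F _
    _ = ∑ f ∈ F, (Pm m).real (High m c a n) :=
        Finset.sum_congr rfl fun f hf => dir_prob hR hL c f (hF1 f hf) a n
    _ = F.card * (Pm m).real (High m c a n) := by rw [Finset.sum_const, nsmul_eq_mul]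

theorem high_mono {m : ℕ} (c a b : ℝ) (n k : ℕ) (hk : k ≤ n) (hab : b + ((n - k : ℕ) : ℝ) ≤ a) :
    High m c a n ⊆ High m c b k := by
  rintro u ⟨h1, h2⟩
  refine ⟨saw_mono h1 hk, ?_⟩
  have h3 := ht_add u (Nat.zero_le k) hk
  have h4 := (le_abs_self _).trans (abs_ht_le u k n)
  linarith

/-- A speed which occurs is at most one. -/
theorem speed_le_one {m : ℕ} (c v l : ℝ) (hl : 0 < l)
    (h : ∀ θ : ℝ, 0 < θ → θ < 1 → ∀ n0 : ℕ, ∃ n ≥ n0,
      (θ * l) ^ n < (Pm m).real (Far m c (v * n) n)) : v ≤ 1 := by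
  obtain ⟨n, hn, h1⟩ := h (1 / 2) (by norm_num) (by norm_num) 1
  have h2 : 0 < (Pm m).real (Far m c (v * n) n) := lt_trans (by positivity) h1
  have h3 : (Far m c (v * n) n).Nonempty := by
    rw [nonempty_iff_ne_empty]
    intro h4
    rw [h4] at h2
    simp at h2
  obtain ⟨u, -, h4⟩ := h3
  have h5 := norm_S_le u 0 n
  rw [Nat.sub_zero] at h5
  have h6 : v * n ≤ 1 * n := by linarith
  have h7 : (0 : ℝ) < n := by exact_mod_cast hn
  exact le_of_mul_le_mul_right h6 h7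

theorem s_vstar (_hB : S_BLOCK) (hR : S_ROT) (hL : S_LIN) (hM : S_LAM) : S_VSTAR := by
  intro m c δ hc0 hc1 hδ hδV
  obtain ⟨hl0, hl1, -⟩ := hM m c hc0 hc1
  set l : ℝ := lam m c with hl
  set V : Set ℝ := {v | ∀ θ : ℝ, 0 < θ → θ < 1 → ∀ n0 : ℕ, ∃ n ≥ n0,
      (θ * l) ^ n < (Pm m).real (Far m c (v * n) n)} with hV
  have hVb : ∀ v ∈ V, v ≤ 1 := fun v hv => speed_le_one c v l hl0 hv
  have hVbd : BddAbove V := ⟨1, hVb⟩
  have hδm : δ ∈ V := hδV
  refine ⟨sSup V, lt_of_lt_of_le hδ (le_csSup hVbd hδm), csSup_le ⟨δ, hδm⟩ hVb, ?_, ?_⟩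
  · intro ε hε
    by_contra hcon
    have h1 : sSup V + ε ∈ V := by
      intro θ h0 h1 n0
      by_contra h2
      refine hcon ⟨θ, h0, h1, n0, fun n hn => ?_⟩
      by_contra h3
      exact h2 ⟨n, hn, not_le.1 h3⟩
    have := le_csSup hVbd h1
    linarith
  · intro ε θ hε hθ0 hθ1 N hN K0
    set v := sSup V with hv
    obtain ⟨v1, hv1, hv1'⟩ := exists_lt_of_lt_csSup ⟨δ, hδm⟩ (show v - ε / 4 < sSup V by
      rw [← hv]; linarith)
    have hv11 : v1 ≤ 1 := hVb v1 hv1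
    set η : ℝ := min (ε / 4) 1 with hη
    have hη0 : 0 < η := lt_min (by linarith) one_pos
    have hη1 : η ≤ 1 := min_le_right _ _
    have hη2 : η ≤ ε / 4 := min_le_left _ _
    obtain ⟨F, hF1, hF2⟩ := hL.2.1 m η hη0
    have hFpos : (0 : ℝ) < F.card := by
      obtain ⟨f, hf, -⟩ := hF2 0
      exact_mod_cast Finset.card_pos.2 ⟨f, hf⟩
    set θ' : ℝ := (1 + θ) / 2 with hθ'
    have hθ'0 : 0 < θ' := by rw [hθ']; linarith
    have hθ'1 : θ' < 1 := by rw [hθ']; linarith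
    have hθθ' : θ < θ' := by rw [hθ']; linarith
    have hlt : (0 : ℝ) < θ' * l := by positivity
    have hlt1 : θ' * l ≤ 1 := by nlinarith
    -- the number of blocks
    have hratio0 : 0 ≤ θ / θ' := by positivity
    have hratio1 : θ / θ' < 1 := (div_lt_one hθ'0).2 hθθ'
    obtain ⟨K1, hK1⟩ := exists_pow_lt_of_lt_one
      (show (0 : ℝ) < (θ' * l) ^ N / F.card by positivity) hratio1
    set v0 : ℝ := v - ε with hv0
    obtain ⟨n1, hn1⟩ := exists_nat_ge (2 * N * (1 + |v0|) / ε)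
    obtain ⟨n, hn, hbig⟩ := hv1 θ' hθ'0 hθ'1 (max (N * (max K0 K1)) n1)
    set K : ℕ := n / N with hK
    have hKN : K * N ≤ n := Nat.div_mul_le_self n N
    have hKr : n - K * N ≤ N := by
      have h1 := Nat.div_add_mod n N
      have h2 := Nat.mod_lt n (show 0 < N by omega)
      have h3 : N * (n / N) = K * N := by rw [hK, Nat.mul_comm]
      omega
    have hKK : max K0 K1 ≤ K := by
      rw [hK, Nat.le_div_iff_mul_le (by omega), Nat.mul_comm]
      exact (le_max_left _ _).trans hn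
    refine ⟨K, (le_max_left _ _).trans hKK, ?_⟩
    have hnn : (n1 : ℝ) ≤ n := by exact_mod_cast (le_max_right _ _).trans hn
    -- heights
    have hheight : v0 * ((K * N : ℕ) : ℝ) + ((n - K * N : ℕ) : ℝ) ≤ (v - ε / 2) * n := by
      have e1 : ((K * N : ℕ) : ℝ) = n - ((n - K * N : ℕ) : ℝ) := by
        rw [Nat.cast_sub hKN]
        ring
      set d : ℝ := ((n - K * N : ℕ) : ℝ) with hd
      have hd0 : 0 ≤ d := Nat.cast_nonneg _
      have hdN : d ≤ N := by
        rw [hd]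
        exact Nat.cast_le.2 hKr
      rw [e1]
      have h3 : 2 * N * (1 + |v0|) / ε ≤ n := hn1.trans hnn
      rw [div_le_iff₀ hε] at h3
      have h4 : -v0 * d ≤ |v0| * N := by
        calc -v0 * d ≤ |v0| * d := mul_le_mul_of_nonneg_right (neg_le_abs v0) hd0
          _ ≤ |v0| * N := mul_le_mul_of_nonneg_left hdN (abs_nonneg _)
      have h5 : (v - ε / 2) * n = v0 * n + ε / 2 * n := by rw [hv0]; ring
      rw [h5]
      nlinarith
    have hcmp : (v - ε / 2) * n ≤ (1 - η) * (v1 * n) := by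
      have h1 : v - ε / 2 ≤ (1 - η) * v1 := by nlinarith
      calc (v - ε / 2) * n ≤ (1 - η) * v1 * n :=
            mul_le_mul_of_nonneg_right h1 (Nat.cast_nonneg _)
        _ = (1 - η) * (v1 * n) := by ring
    have h1 := far_le_high hR hL c v1 ((v - ε / 2) * n) η n F hη1 hF1 hF2 hcmp
    have h2 : (Pm m).real (High m c ((v - ε / 2) * n) n) ≤
        (Pm m).real (High m c (v0 * ((K * N : ℕ) : ℝ)) (K * N)) :=
      measureReal_mono (high_mono c _ _ n (K * N) hKN hheight) (measure_ne_top _ _)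
    have h3 : (θ' * l) ^ n / F.card ≤
        (Pm m).real (High m c (v0 * ((K * N : ℕ) : ℝ)) (K * N)) := by
      rw [div_le_iff₀ hFpos]
      have h4 := hbig.le.trans h1
      have h5 := mul_le_mul_of_nonneg_left h2 hFpos.le
      linarith
    refine le_trans ?_ h3
    rw [le_div_iff₀ hFpos]
    have h4 : (θ' * l) ^ n = (θ' * l) ^ (K * N) * (θ' * l) ^ (n - K * N) := by
      rw [← pow_add, Nat.add_sub_cancel' hKN]
    have h5 : (θ' * l) ^ N ≤ (θ' * l) ^ (n - K * N) :=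
      pow_le_pow_of_le_one hlt.le hlt1 hKr
    have h6 : (θ * l) ^ (K * N) = (θ / θ') ^ (K * N) * (θ' * l) ^ (K * N) := by
      rw [← mul_pow]
      congr 1
      field_simp
    have h7 : (θ / θ') ^ (K * N) ≤ (θ / θ') ^ K1 := by
      refine pow_le_pow_of_le_one hratio0 hratio1.le ?_
      calc K1 ≤ K := (le_max_right _ _).trans hKK
        _ ≤ K * N := Nat.le_mul_of_pos_right _ (by omega)
    have h8 : (θ / θ') ^ (K * N) * F.card ≤ (θ' * l) ^ N := by
      have h9 : (θ / θ') ^ (K * N) ≤ (θ' * l) ^ N / F.card := h7.trans hK1.le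
      rwa [le_div_iff₀ hFpos] at h9
    rw [h4, h6]
    calc (θ / θ') ^ (K * N) * (θ' * l) ^ (K * N) * F.card
        = (θ' * l) ^ (K * N) * ((θ / θ') ^ (K * N) * F.card) := by ring
      _ ≤ (θ' * l) ^ (K * N) * (θ' * l) ^ (n - K * N) :=
          mul_le_mul_of_nonneg_left (h8.trans h5) (by positivity)

end Pool.Agent.H357.HS
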